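import Mathlib

/-!
# Row Up, analytic half (helper62): `∏ (1 - a^(-1-e))⁻¹ ≤ exp (1/e + 1)`
-/

set_option autoImplicit false

namespace Pool.Agent.Helper62.Up

open Finset

/-- Bernoulli step -/
lemma step {e : ℝ} (he : 0 < e) {a : ℕ} (ha : 2 ≤ a) :
    e * (a : ℝ) ^ (-(1 + e)) ≤ ((a - 1 : ℕ) : ℝ) ^ (-e) - (a : ℝ) ^ (-e) := by
  have ha' : (2 : ℝ) ≤ (a : ℝ) := by exact_mod_cast ha
  have hpos : (0 : ℝ) < (a : ℝ) := by linarith
  have hcast : ((a - 1 : ℕ) : ℝ) = (a : ℝ) - 1 := by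
    rw [Nat.cast_sub (by omega)]
    simp
  rw [hcast]
  set u : ℝ := 1 / (a : ℝ) with hu
  have hu0 : 0 < u := by positivity
  have hu1 : u ≤ 1 / 2 := by
    rw [hu]
    exact one_div_le_one_div_of_le (by norm_num) ha'
  have h1 : (a : ℝ) - 1 = a * (1 - u) := by
    rw [hu]
    field_simp
  have h2 : ((a : ℝ) - 1) ^ (-e) = (a : ℝ) ^ (-e) * (1 - u) ^ (-e) := by
    rw [h1, Real.mul_rpow hpos.le (by linarith)]
  have h3 : 1 + e * u ≤ (1 - u) ^ (-e) := by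
    have h4 : (1 - u) ^ (-e) = Real.exp (Real.log (1 - u) * (-e)) := by
      rw [Real.rpow_def_of_pos (by linarith)]
    rw [h4]
    have h5 : Real.log (1 - u) ≤ -u := by
      have := Real.log_le_sub_one_of_pos (show (0 : ℝ) < 1 - u by linarith)
      linarith
    have h6 : e * u ≤ Real.log (1 - u) * (-e) := by nlinarith
    have h7 := Real.add_one_le_exp (Real.log (1 - u) * (-e))
    linarith
  have h8 : (a : ℝ) ^ (-(1 + e)) = (a : ℝ) ^ (-e) * u := by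
    have : -(1 + e) = -e - 1 := by ring
    rw [this, Real.rpow_sub_one hpos.ne', hu]
    ring
  rw [h2, h8]
  have h9 : 0 < (a : ℝ) ^ (-e) := Real.rpow_pos_of_pos hpos _
  nlinarith

/-- the sum -/
lemma sum_le {e : ℝ} (he : 0 < e) (Y : ℕ) : ∑ a ∈ Icc 2 Y, (a : ℝ) ^ (-(1 + e)) ≤ 1 / e := by
  have key : ∀ Y : ℕ, 1 ≤ Y → e * ∑ a ∈ Icc 2 Y, (a : ℝ) ^ (-(1 + e)) ≤ 1 - (Y : ℝ) ^ (-e) := by
    intro Y hY
    induction Y, hY using Nat.le_induction with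
    | base => simp
    | succ n hn ih =>
      rw [← Finset.insert_Icc_right_eq_Icc_add_one (by omega), Finset.sum_insert (by simp), mul_add]
      have := step he (a := n + 1) (by omega)
      simp only [Nat.add_sub_cancel] at this
      linarith
  rcases Nat.lt_or_ge Y 1 with h | h
  · have : Icc 2 Y = ∅ := Finset.Icc_eq_empty (by omega)
    rw [this]
    simp
    exact he.le
  · have h1 := key Y h
    have h2 : (0 : ℝ) ≤ (Y : ℝ) ^ (-e) := Real.rpow_nonneg (Nat.cast_nonneg _) _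
    rw [le_div_iff₀ he]
    linarith

lemma inv_le {u : ℝ} (h0 : 0 ≤ u) (h1 : u ≤ 1 / 2) : (1 - u)⁻¹ ≤ Real.exp (u + u * u * 2) := by
  have h2 : (1 - u)⁻¹ ≤ 1 + (u + u * u * 2) := by
    rw [inv_le_comm₀ (by linarith) (by positivity)]
    rw [inv_eq_one_div, div_le_iff₀ (by positivity)]
    nlinarith [mul_nonneg h0 h0, mul_nonneg (mul_nonneg h0 h0) (show (0 : ℝ) ≤ 1 - 2 * u by linarith)]
  have := Real.add_one_le_exp (u + u * u * 2)
  linarith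

/-- **U1.** -/
theorem prod_le {e : ℝ} (he : 0 < e) (Y : ℕ) :
    ∏ a ∈ Icc 2 Y, (1 - (a : ℝ) ^ (-(1 + e)))⁻¹ ≤ Real.exp (1 / e + 2) := by
  have h1 : ∀ a ∈ Icc 2 Y, (1 - (a : ℝ) ^ (-(1 + e)))⁻¹ ≤
      Real.exp ((a : ℝ) ^ (-(1 + e)) + 2 * (a : ℝ) ^ (-(1 + (1 : ℝ)))) := by
    intro a ha
    rw [mem_Icc] at ha
    have ha' : (2 : ℝ) ≤ (a : ℝ) := by exact_mod_cast ha.1
    have hpos : (0 : ℝ) < (a : ℝ) := by linarith
    set u := (a : ℝ) ^ (-(1 + e)) with hu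
    have hu0 : 0 ≤ u := Real.rpow_nonneg hpos.le _
    have hu1 : u ≤ (a : ℝ) ^ (-(1 : ℝ)) := Real.rpow_le_rpow_of_exponent_le (by linarith) (by linarith)
    have hu2 : (a : ℝ) ^ (-(1 : ℝ)) ≤ 1 / 2 := by
      rw [Real.rpow_neg_one, inv_eq_one_div]
      exact one_div_le_one_div_of_le (by norm_num) ha'
    have hu3 : u * u ≤ (a : ℝ) ^ (-(1 + (1 : ℝ))) := by
      have : (a : ℝ) ^ (-(1 + (1 : ℝ))) = (a : ℝ) ^ (-(1 : ℝ)) * (a : ℝ) ^ (-(1 : ℝ)) := by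
        rw [← Real.rpow_add hpos]
        norm_num
      rw [this]
      exact mul_le_mul hu1 hu1 hu0 (Real.rpow_nonneg hpos.le _)
    refine (inv_le hu0 (hu1.trans hu2)).trans (Real.exp_le_exp.2 ?_)
    linarith
  have h2 : ∀ a ∈ Icc 2 Y, 0 ≤ (1 - (a : ℝ) ^ (-(1 + e)))⁻¹ := by
    intro a ha
    rw [mem_Icc] at ha
    have ha' : (1 : ℝ) ≤ (a : ℝ) := by exact_mod_cast (by omega : 1 ≤ a)
    rw [inv_nonneg, sub_nonneg]
    exact Real.rpow_le_one_of_one_le_of_nonpos ha' (by linarith)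
  refine (Finset.prod_le_prod h2 h1).trans ?_
  rw [← Real.exp_sum, Finset.sum_add_distrib, ← Finset.mul_sum]
  apply Real.exp_le_exp.2
  have h3 := sum_le he Y
  have h4 := sum_le (one_pos) Y
  linarith

end Pool.Agent.Helper62.Up
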