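import Pool.Agent.Helper62.Up.An

/-!
# Row Up, combinatorial half (helper62): multisets of integers `≥ 2` with product `≤ Y`
-/

set_option autoImplicit false

namespace Pool.Agent.Helper62.Up

open Finset

/-- weight of a multiset -/
lemma weight_eq {e : ℝ} (m : Multiset ℕ) (hm : ∀ a ∈ m, 0 < a) :
    (m.map (fun a : ℕ => (a : ℝ) ^ (-(1 + e)))).prod = ((m.prod : ℕ) : ℝ) ^ (-(1 + e)) := by
  induction m using Multiset.induction with
  | empty => simp
  | cons a t ih =>
    rw [Multiset.map_cons, Multiset.prod_cons, Multiset.prod_cons, ih fun b hb => hm b (Multiset.mem_cons_of_mem hb),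
      Nat.cast_mul, Real.mul_rpow (Nat.cast_nonneg _) (Nat.cast_nonneg _)]

/-- sum of the weights -/
lemma sum_weight_le {e : ℝ} (he : 0 < e) (Y : ℕ) (M : Finset (Multiset ℕ)) (hM : ∀ m ∈ M, ∀ a ∈ m, 2 ≤ a ∧ a ≤ Y) :
    ∑ m ∈ M, (m.map (fun a : ℕ => (a : ℝ) ^ (-(1 + e)))).prod ≤
      ∏ a ∈ Icc 2 Y, (1 - (a : ℝ) ^ (-(1 + e)))⁻¹ := by
  classical
  induction Y generalizing M with
  | zero =>
    have h1 : ∀ m ∈ M, m = 0 := by
      intro m hm
      rw [Multiset.eq_zero_iff_forall_notMem]
      intro a ha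
      have := hM m hm a ha
      omega
    have h2 : M ⊆ {0} := fun m hm => by rw [Finset.mem_singleton]; exact h1 m hm
    refine (Finset.sum_le_sum_of_subset_of_nonneg h2 ?_).trans ?_
    · intro m hm _
      rw [Finset.mem_singleton] at hm
      subst hm
      simp
    · simp
  | succ n ih =>
    rcases Nat.lt_or_ge n 1 with hn | hn
    · have hn0 : n = 0 := by omega
      subst hn0
      have h1 : ∀ m ∈ M, m = 0 := by
        intro m hm
        rw [Multiset.eq_zero_iff_forall_notMem]
        intro a ha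
        have := hM m hm a ha
        omega
      have h2 : M ⊆ {0} := fun m hm => by rw [Finset.mem_singleton]; exact h1 m hm
      refine (Finset.sum_le_sum_of_subset_of_nonneg h2 ?_).trans ?_
      · intro m hm _
        rw [Finset.mem_singleton] at hm
        subst hm
        simp
      · simp
    · set w : ℕ → ℝ := fun a => (a : ℝ) ^ (-(1 + e)) with hw
      have hw0 : ∀ a, 0 ≤ w a := fun a => Real.rpow_nonneg (Nat.cast_nonneg a) _
      set q : ℝ := w (n + 1) with hq
      have hq1 : q < 1 := by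
        rw [hq, hw]
        have h3 : (1 : ℝ) < ((n + 1 : ℕ) : ℝ) := by exact_mod_cast (by omega : 1 < n + 1)
        exact Real.rpow_lt_one_of_one_lt_of_neg h3 (by linarith)
      set K := M.sup (fun m => m.count (n + 1)) with hK
      set M' := M.image (fun m => m.filter (· ≠ n + 1)) with hM'
      have hM'' : ∀ m ∈ M', ∀ a ∈ m, 2 ≤ a ∧ a ≤ n := by
        intro m hm a ha
        rw [hM', Finset.mem_image] at hm
        obtain ⟨m0, hm0, rfl⟩ := hm
        rw [Multiset.mem_filter] at ha
        have := hM m0 hm0 a ha.1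
        omega
      have h4 := ih M' hM''
      have h5 : ∑ m ∈ M, (m.map w).prod ≤ ∑ p ∈ Finset.range (K + 1) ×ˢ M', q ^ p.1 * (p.2.map w).prod := by
        have h6 : ∀ m ∈ M, (m.map w).prod = q ^ (m.count (n + 1)) * ((m.filter (· ≠ n + 1)).map w).prod := by
          intro m _
          conv_lhs => rw [← Multiset.filter_add_not (· = n + 1) m]
          rw [Multiset.map_add, Multiset.prod_add, Multiset.filter_eq', Multiset.map_replicate, Multiset.prod_replicate]
        rw [Finset.sum_congr rfl h6]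
        have h7 : Set.InjOn (fun m : Multiset ℕ => (m.count (n + 1), m.filter (· ≠ n + 1))) (M : Set (Multiset ℕ)) := by
          intro a _ b _ hab
          simp only [Prod.mk.injEq] at hab
          rw [← Multiset.filter_add_not (· = n + 1) a, ← Multiset.filter_add_not (· = n + 1) b,
            Multiset.filter_eq', Multiset.filter_eq', hab.1]
          congr 1
          exact hab.2
        rw [← Finset.sum_image (f := fun p : ℕ × Multiset ℕ => q ^ p.1 * (p.2.map w).prod) h7]
        apply Finset.sum_le_sum_of_subset_of_nonneg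
        · intro p hp
          rw [Finset.mem_image] at hp
          obtain ⟨m, hm, rfl⟩ := hp
          rw [Finset.mem_product, Finset.mem_range]
          refine ⟨?_, Finset.mem_image_of_mem _ hm⟩
          have : m.count (n + 1) ≤ K := Finset.le_sup (f := fun m : Multiset ℕ => m.count (n + 1)) hm
          show m.count (n + 1) < K + 1
          omega
        · intro p _ _
          refine mul_nonneg (pow_nonneg (hw0 _) _) (Multiset.prod_nonneg ?_)
          intro b hb
          rw [Multiset.mem_map] at hb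
          obtain ⟨a, _, rfl⟩ := hb
          exact hw0 a
      have h8 : ∑ p ∈ Finset.range (K + 1) ×ˢ M', q ^ p.1 * (p.2.map w).prod =
          (∑ j ∈ Finset.range (K + 1), q ^ j) * ∑ m ∈ M', (m.map w).prod := by
        rw [Finset.sum_product, Finset.sum_mul]
        refine Finset.sum_congr rfl fun j _ => ?_
        rw [Finset.mul_sum]
      have h9 : ∑ j ∈ Finset.range (K + 1), q ^ j ≤ (1 - q)⁻¹ := by
        have := Summable.sum_le_tsum (Finset.range (K + 1)) (fun j _ => pow_nonneg (hw0 (n + 1)) j)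
          (summable_geometric_of_lt_one (hw0 (n + 1)) hq1)
        rwa [tsum_geometric_of_lt_one (hw0 (n + 1)) hq1] at this
      have h10 : 0 ≤ ∑ m ∈ M', (m.map w).prod := by
        refine Finset.sum_nonneg fun m _ => Multiset.prod_nonneg ?_
        intro b hb
        rw [Multiset.mem_map] at hb
        obtain ⟨a, _, rfl⟩ := hb
        exact hw0 a
      have h11 : 0 ≤ (1 - q)⁻¹ := by
        rw [inv_nonneg]
        linarith
      rw [← Finset.insert_Icc_right_eq_Icc_add_one (by omega), Finset.prod_insert (by simp)]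
      calc ∑ m ∈ M, (m.map w).prod ≤ (∑ j ∈ Finset.range (K + 1), q ^ j) * ∑ m ∈ M', (m.map w).prod := by
            rw [← h8]; exact h5
        _ ≤ (1 - q)⁻¹ * ∑ m ∈ M', (m.map w).prod := mul_le_mul_of_nonneg_right h9 h10
        _ ≤ (1 - q)⁻¹ * ∏ a ∈ Icc 2 n, (1 - w a)⁻¹ := mul_le_mul_of_nonneg_left h4 h11

lemma entry_le_prod {m : Multiset ℕ} (hm : ∀ a ∈ m, 0 < a) {a : ℕ} (ha : a ∈ m) : a ≤ m.prod := by
  obtain ⟨t, rfl⟩ := Multiset.exists_cons_of_mem ha
  rw [Multiset.prod_cons]
  have : 0 < t.prod := by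
    rw [Nat.pos_iff_ne_zero]
    intro h0
    rw [Multiset.prod_eq_zero_iff] at h0
    have := hm 0 (Multiset.mem_cons_of_mem h0)
    omega
  exact Nat.le_mul_of_pos_right a this

/-- **U2.** -/
theorem card_le {e : ℝ} (he : 0 < e) (Y : ℕ) (hY : 1 ≤ Y) (M : Finset (Multiset ℕ))
    (hM : ∀ m ∈ M, (∀ a ∈ m, 2 ≤ a) ∧ m.prod ≤ Y) :
    (M.card : ℝ) ≤ (Y : ℝ) ^ (1 + e) * Real.exp (1 / e + 2) := by
  have h1 := (sum_weight_le he Y M (fun m hm a ha => ⟨(hM m hm).1 a ha,
    (entry_le_prod (fun b hb => by have := (hM m hm).1 b hb; omega) ha).trans (hM m hm).2⟩)).trans (prod_le he Y)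
  have hYpos : (0 : ℝ) < (Y : ℝ) := by exact_mod_cast (by omega : 0 < Y)
  have h2 : ∀ m ∈ M, (1 : ℝ) ≤ (Y : ℝ) ^ (1 + e) * (m.map (fun a : ℕ => (a : ℝ) ^ (-(1 + e)))).prod := by
    intro m hm
    have hpos : ∀ a ∈ m, 0 < a := fun b hb => by have := (hM m hm).1 b hb; omega
    rw [weight_eq m hpos]
    have hp : 0 < m.prod := by
      rw [Nat.pos_iff_ne_zero]
      intro h0
      rw [Multiset.prod_eq_zero_iff] at h0
      have := hpos 0 h0
      omega
    have hp' : (0 : ℝ) < ((m.prod : ℕ) : ℝ) := by exact_mod_cast hp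
    rw [Real.rpow_neg hp'.le, ← div_eq_mul_inv, ← Real.div_rpow hYpos.le hp'.le]
    apply Real.one_le_rpow _ (by linarith)
    rw [one_le_div hp']
    exact_mod_cast (hM m hm).2
  calc (M.card : ℝ) = ∑ m ∈ M, (1 : ℝ) := by simp
    _ ≤ ∑ m ∈ M, (Y : ℝ) ^ (1 + e) * (m.map (fun a : ℕ => (a : ℝ) ^ (-(1 + e)))).prod := Finset.sum_le_sum h2
    _ = (Y : ℝ) ^ (1 + e) * ∑ m ∈ M, (m.map (fun a : ℕ => (a : ℝ) ^ (-(1 + e)))).prod := by rw [Finset.mul_sum]
    _ ≤ _ := mul_le_mul_of_nonneg_left h1 (Real.rpow_nonneg hYpos.le _)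

end Pool.Agent.Helper62.Up
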