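import Pool.Agent.SPA.Stmts10

/-!
# Row GL (helper62): sums over multisets
-/

set_option autoImplicit false

namespace Pool.Agent.Helper62.Up

open Finset

/-- sum of the weights, general weight -/
lemma sum_gen (Y : ℕ) (w : ℕ → ℝ) (M : Finset (Multiset ℕ)) (hw : ∀ n, 2 ≤ n → n ≤ Y → 0 ≤ w n ∧ w n ≤ 1 / 2)
    (hM : ∀ m ∈ M, ∀ a ∈ m, 2 ≤ a ∧ a ≤ Y) :
    ∑ m ∈ M, (m.map w).prod ≤ ∏ a ∈ Icc 2 Y, (1 - w a)⁻¹ := by
  classical
  have base : ∀ M : Finset (Multiset ℕ), (∀ m ∈ M, ∀ a ∈ m, 2 ≤ a ∧ a ≤ 1) →
      ∑ m ∈ M, (m.map w).prod ≤ 1 := by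
    intro M hM
    have h1 : ∀ m ∈ M, m = 0 := by
      intro m hm
      rw [Multiset.eq_zero_iff_forall_notMem]
      intro a ha
      have := hM m hm a ha
      omega
    have h2 : M ⊆ {0} := fun m hm => by rw [Finset.mem_singleton]; exact h1 m hm
    refine (Finset.sum_le_sum_of_subset_of_nonneg h2 ?_).trans ?_
    · intro m hm _
      rw [Finset.mem_singleton] at hm
      subst hm
      simp
    · simp
  induction Y generalizing M with
  | zero =>
    have := base M (fun m hm a ha => by have := hM m hm a ha; omega)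
    simpa using this
  | succ n ih =>
    rcases Nat.lt_or_ge n 1 with hn | hn
    · have hn0 : n = 0 := by omega
      subst hn0
      have := base M (fun m hm a ha => by have := hM m hm a ha; omega)
      simpa using this
    · obtain ⟨hq0, hq1⟩ := hw (n + 1) (by omega) le_rfl
      set q : ℝ := w (n + 1) with hq
      have hq1' : q < 1 := by linarith
      set K := M.sup (fun m => m.count (n + 1)) with hK
      set M' := M.image (fun m => m.filter (· ≠ n + 1)) with hM'
      have hM'' : ∀ m ∈ M', ∀ a ∈ m, 2 ≤ a ∧ a ≤ n := by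
        intro m hm a ha
        rw [hM', Finset.mem_image] at hm
        obtain ⟨m0, hm0, rfl⟩ := hm
        rw [Multiset.mem_filter] at ha
        have := hM m0 hm0 a ha.1
        omega
      have h4 := ih M' (fun k hk hk' => hw k hk (by omega)) hM''
      have hnn : ∀ m ∈ M', 0 ≤ (m.map w).prod := by
        intro m hm
        refine Multiset.prod_nonneg ?_
        intro b hb
        rw [Multiset.mem_map] at hb
        obtain ⟨a, ha, rfl⟩ := hb
        have := hM'' m hm a ha
        exact (hw a this.1 (by omega)).1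
      have h5 : ∑ m ∈ M, (m.map w).prod ≤ ∑ p ∈ Finset.range (K + 1) ×ˢ M', q ^ p.1 * (p.2.map w).prod := by
        have h6 : ∀ m ∈ M, (m.map w).prod = q ^ (m.count (n + 1)) * ((m.filter (· ≠ n + 1)).map w).prod := by
          intro m _
          conv_lhs => rw [← Multiset.filter_add_not (· = n + 1) m]
          rw [Multiset.map_add, Multiset.prod_add, Multiset.filter_eq', Multiset.map_replicate, Multiset.prod_replicate]
        rw [Finset.sum_congr rfl h6]
        have h7 : Set.InjOn (fun m : Multiset ℕ => (m.count (n + 1), m.filter (· ≠ n + 1))) (M : Set (Multiset ℕ)) := by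
          intro a _ b _ hab
          simp only [Prod.mk.injEq] at hab
          rw [← Multiset.filter_add_not (· = n + 1) a, ← Multiset.filter_add_not (· = n + 1) b,
            Multiset.filter_eq', Multiset.filter_eq', hab.1]
          congr 1
          exact hab.2
        rw [← Finset.sum_image (f := fun p : ℕ × Multiset ℕ => q ^ p.1 * (p.2.map w).prod) h7]
        apply Finset.sum_le_sum_of_subset_of_nonneg
        · intro p hp
          rw [Finset.mem_image] at hp
          obtain ⟨m, hm, rfl⟩ := hp
          rw [Finset.mem_product, Finset.mem_range]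
          refine ⟨?_, Finset.mem_image_of_mem _ hm⟩
          have : m.count (n + 1) ≤ K := Finset.le_sup (f := fun m : Multiset ℕ => m.count (n + 1)) hm
          show m.count (n + 1) < K + 1
          omega
        · intro p hp _
          rw [Finset.mem_product] at hp
          exact mul_nonneg (pow_nonneg hq0 _) (hnn p.2 hp.2)
      have h8 : ∑ p ∈ Finset.range (K + 1) ×ˢ M', q ^ p.1 * (p.2.map w).prod =
          (∑ j ∈ Finset.range (K + 1), q ^ j) * ∑ m ∈ M', (m.map w).prod := by
        rw [Finset.sum_product, Finset.sum_mul]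
        refine Finset.sum_congr rfl fun j _ => ?_
        rw [Finset.mul_sum]
      have h9 : ∑ j ∈ Finset.range (K + 1), q ^ j ≤ (1 - q)⁻¹ := by
        have := Summable.sum_le_tsum (Finset.range (K + 1)) (fun j _ => pow_nonneg hq0 j)
          (summable_geometric_of_lt_one hq0 hq1')
        rwa [tsum_geometric_of_lt_one hq0 hq1'] at this
      have h10 : 0 ≤ ∑ m ∈ M', (m.map w).prod := Finset.sum_nonneg hnn
      have h11 : 0 ≤ (1 - q)⁻¹ := by
        rw [inv_nonneg]
        linarith
      rw [← Finset.insert_Icc_right_eq_Icc_add_one (by omega), Finset.prod_insert (by simp)]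
      calc ∑ m ∈ M, (m.map w).prod ≤ (∑ j ∈ Finset.range (K + 1), q ^ j) * ∑ m ∈ M', (m.map w).prod := by
            rw [← h8]; exact h5
        _ ≤ (1 - q)⁻¹ * ∑ m ∈ M', (m.map w).prod := mul_le_mul_of_nonneg_right h9 h10
        _ ≤ (1 - q)⁻¹ * ∏ a ∈ Icc 2 n, (1 - w a)⁻¹ := mul_le_mul_of_nonneg_left h4 h11

/-- **Row GL.** -/
theorem gl62 : Pool.Agent.SPA.RowGL := fun N g X hg hX => sum_gen N g X hg hX

end Pool.Agent.Helper62.Up
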