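import Pool.Agent.Helper62.Up.UF

/-!
# Row UA1 (helper62)
-/

set_option autoImplicit false

namespace Pool.Agent.Helper62.Up

open Finset Pool.Agent.SPA Pool.Agent.SPM

lemma sum_ge_card (t : Multiset ℕ) (ht : ∀ a ∈ t, 2 ≤ a) : t.card ≤ t.sum := by
  have h : t.card • 2 ≤ t.sum := Multiset.card_nsmul_le_sum ht
  rw [smul_eq_mul] at h
  omega

lemma sum_le_card (y : ℕ) (t : Multiset ℕ) (ht : ∀ a ∈ t, a ≤ y) : t.sum ≤ t.card * y := by
  have h : t.sum ≤ t.card • y := Multiset.sum_le_card_nsmul t y ht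
  rwa [smul_eq_mul] at h

lemma two_pow_card (t : Multiset ℕ) (ht : ∀ a ∈ t, 2 ≤ a) : 2 ^ t.card ≤ t.prod := by
  induction t using Multiset.induction with
  | empty => simp
  | cons a t ih =>
    rw [Multiset.card_cons, Multiset.prod_cons, pow_succ, mul_comm]
    exact Nat.mul_le_mul (ht a (Multiset.mem_cons_self a t)) (ih fun b hb => ht b (Multiset.mem_cons_of_mem hb))

lemma smooth (y : ℕ) (t : Multiset ℕ) (ht : ∀ a ∈ t, 2 ≤ a ∧ a ≤ y) : ∀ p ∈ t.prod.primeFactorsList, p ≤ y := by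
  intro p hp
  have hp1 := Nat.prime_of_mem_primeFactorsList hp
  have hp2 := Nat.dvd_of_mem_primeFactorsList hp
  obtain ⟨a, ha, hpa⟩ := (Nat.Prime.prime hp1).exists_mem_multiset_dvd hp2
  exact (Nat.le_of_dvd (by have := (ht a ha).1; omega) hpa).trans (ht a ha).2

/-- sum over the multisets of large entries -/
lemma large_sum {N : ℕ} {lam η : ℝ} (hlam : 1 ≤ lam) (hη : 0 < η) (B : Finset (Multiset ℕ))
    (hB : ∀ s ∈ B, ∀ e ∈ s, 2 ≤ e ∧ e ≤ N) :
    ∑ b ∈ B, (lam⁻¹) ^ b.card * ((b.prod : ℕ) : ℝ) ^ (-(1 + η)) ≤ Real.exp (2 / (lam * η)) := by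
  have hlam0 : 0 < lam := by linarith
  have hli0 : 0 ≤ lam⁻¹ := (inv_pos.2 hlam0).le
  have hli1 : lam⁻¹ ≤ 1 := inv_le_one_of_one_le₀ hlam
  set g : ℕ → ℝ := fun e => lam⁻¹ * (e : ℝ) ^ (-(1 + η)) with hg
  have hg01 : ∀ n, 2 ≤ n → 0 ≤ g n ∧ g n ≤ 1 / 2 := by
    intro n hn
    have hn' : (2 : ℝ) ≤ (n : ℝ) := by exact_mod_cast hn
    have hnpos : (0 : ℝ) < (n : ℝ) := by linarith
    have h12 : 1 / (n : ℝ) ≤ 1 / 2 := one_div_le_one_div_of_le (by norm_num) hn'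
    have h3 : (n : ℝ) ^ (-(1 + η)) ≤ 1 / n := by
      have : (n : ℝ) ^ (-(1 + η)) ≤ (n : ℝ) ^ (-(1 : ℝ)) :=
        Real.rpow_le_rpow_of_exponent_le (by linarith) (by linarith)
      rwa [Real.rpow_neg_one, inv_eq_one_div] at this
    have h4 : 0 ≤ (n : ℝ) ^ (-(1 + η)) := Real.rpow_nonneg hnpos.le _
    refine ⟨mul_nonneg hli0 h4, ?_⟩
    calc lam⁻¹ * (n : ℝ) ^ (-(1 + η)) ≤ 1 * (1 / 2) := mul_le_mul hli1 (h3.trans h12) h4 zero_le_one
      _ = 1 / 2 := one_mul _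
  have h1 := gl62 N g B (fun n hn _ => hg01 n hn) hB
  have h2 : ∑ b ∈ B, (b.map g).prod = ∑ b ∈ B, (lam⁻¹) ^ b.card * ((b.prod : ℕ) : ℝ) ^ (-(1 + η)) :=
    Finset.sum_congr rfl fun b _ => large_prod lam η b
  rw [← h2]
  refine h1.trans ?_
  have h3 : ∀ n ∈ Icc 2 N, (1 - g n)⁻¹ ≤ Real.exp (2 * g n) := fun n hn => by
    have := hg01 n (mem_Icc.1 hn).1
    exact inv_le2 this.1 this.2
  have h4 : ∀ n ∈ Icc 2 N, 0 ≤ (1 - g n)⁻¹ := fun n hn => by
    have := hg01 n (mem_Icc.1 hn).1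
    rw [inv_nonneg]
    linarith
  refine (Finset.prod_le_prod h4 h3).trans ?_
  rw [← Real.exp_sum, ← Finset.mul_sum]
  apply Real.exp_le_exp.2
  have h5 : ∑ n ∈ Icc 2 N, g n = lam⁻¹ * ∑ a ∈ Icc 2 N, (a : ℝ) ^ (-(1 + η)) := by
    rw [Finset.mul_sum]
  have h6 : lam⁻¹ * ∑ a ∈ Icc 2 N, (a : ℝ) ^ (-(1 + η)) ≤ lam⁻¹ * (1 / η) :=
    mul_le_mul_of_nonneg_left (sum_le hη N) hli0
  have h8 : 2 / (lam * η) = 2 * (lam⁻¹ * (1 / η)) := by
    field_simp
  rw [h8, h5]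
  linarith

/-- **Row UA1.** -/
theorem ua162 : RowU1 → RowUA1 := by
  classical
  rintro ⟨C, hC, hU⟩
  refine ⟨C, hC, ?_⟩
  intro x y w M n₁ Z lam η hx hw hwy hZ hZw hlam hη0 hη1 hyn X hX
  have hsol : ∀ k ∈ X, ∃ s : Multiset ℕ, IsSP k s ∧ M < om w ((big s).filter (fun a => a ≤ y)).prod :=
    fun k hk => (hX k hk).2.2
  choose! σ hσ using hsol
  set a : ℕ → Multiset ℕ := fun k => (big (σ k)).filter (fun a => a ≤ y) with ha
  set b : ℕ → Multiset ℕ := fun k => (big (σ k)).filter (fun a => ¬ a ≤ y) with hb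
  have hab : ∀ k, big (σ k) = a k + b k := fun k => (Multiset.filter_add_not _ _).symm
  have hbig2 : ∀ k, ∀ e ∈ big (σ k), 2 ≤ e := fun k e he => (Multiset.mem_filter.1 he).2
  have ha2 : ∀ k, ∀ e ∈ a k, 2 ≤ e ∧ e ≤ y := fun k e he => by
    have := Multiset.mem_filter.1 he
    exact ⟨hbig2 k e this.1, this.2⟩
  have hb2 : ∀ k, ∀ e ∈ b k, 2 ≤ e ∧ y < e := fun k e he => by
    have := Multiset.mem_filter.1 he
    exact ⟨hbig2 k e this.1, by have := this.2; omega⟩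
  have hap : ∀ k, 0 < (a k).prod := fun k => Nat.pos_of_ne_zero (prod_ne _ fun e he => (ha2 k e he).1)
  have hbp : ∀ k, 0 < (b k).prod := fun k => Nat.pos_of_ne_zero (prod_ne _ fun e he => (hb2 k e he).1)
  have hprod : ∀ k ∈ X, (a k).prod * (b k).prod ≤ 2 * x := by
    intro k hk
    have h1 := prod_le_two (hX k hk).1 (hσ k hk).1
    have h2 : ((σ k).filter (2 ≤ ·)).prod = (a k).prod * (b k).prod := by
      have := hab k
      unfold big at this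
      rw [this, Multiset.prod_add]
    rw [h2] at h1
    have := (hX k hk).2.1
    omega
  have hkey : ∀ k ∈ X, k + ((a k).sum - (a k).card) + (b k).sum = (a k).prod * (b k).prod + (b k).card := by
    intro k hk
    obtain ⟨j, h1, h2, h3⟩ := split (hσ k hk).1
    have h4 := hab k
    unfold big at h4
    rw [h4, Multiset.card_add] at h2
    rw [h4, Multiset.prod_add, Multiset.sum_add] at h3
    have h5 := sum_ge_card (a k) fun e he => (ha2 k e he).1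
    omega
  set f : ℕ → (ℕ × ℕ) × Multiset ℕ := fun k => (((a k).prod, (a k).sum - (a k).card), b k) with hf
  have hinj : Set.InjOn f (X : Set ℕ) := by
    intro k hk k' hk' h
    simp only [hf, Prod.mk.injEq] at h
    obtain ⟨⟨h1, h2⟩, h3⟩ := h
    have e1 := hkey k hk
    have e2 := hkey k' hk'
    rw [h1, h2, h3] at e1
    omega
  have hxpos : (0 : ℝ) < 2 * (x : ℝ) := by
    have : (2 : ℝ) ≤ (x : ℝ) := by exact_mod_cast hx
    linarith
  have hx0 : 0 ≤ (2 * (x : ℝ)) ^ (1 + η) := Real.rpow_nonneg hxpos.le _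
  have hlam0 : 0 < lam := by linarith
  have hli0 : 0 ≤ lam⁻¹ := (inv_pos.2 hlam0).le
  have hli1 : lam⁻¹ ≤ 1 := inv_le_one_of_one_le₀ hlam
  have hZ0 : 0 < Z := by linarith
  set K := (2 * (x : ℝ)) ^ (1 + η) * (1 / Z) ^ M * lam ^ n₁ with hK
  have hK0 : 0 ≤ K := by positivity
  set W : (ℕ × ℕ) × Multiset ℕ → ℝ := fun q => Z ^ om w q.1.1 / (q.1.1 : ℝ) *
    ((lam⁻¹) ^ q.2.card * ((q.2.prod : ℕ) : ℝ) ^ (-(1 + η))) with hW
  have hw1 : ∀ k ∈ X, (1 : ℝ) ≤ K * W (f k) := by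
    intro k hk
    have hap' : (1 : ℝ) ≤ (((a k).prod : ℕ) : ℝ) := by exact_mod_cast hap k
    have hbp' : (1 : ℝ) ≤ (((b k).prod : ℕ) : ℝ) := by exact_mod_cast hbp k
    have hbcard : (b k).card ≤ n₁ := by
      by_contra hcon
      push Not at hcon
      have h4 : y ^ (b k).card ≤ (b k).prod := pow_card_le y (b k) fun e he => (hb2 k e he).2
      have h5 : y ^ (n₁ + 1) ≤ y ^ (b k).card := Nat.pow_le_pow_right (by omega) hcon
      have h6 : (b k).prod ≤ (a k).prod * (b k).prod := Nat.le_mul_of_pos_left _ (hap k)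
      have h7 := hprod k hk
      omega
    have e1 : Z ^ M ≤ Z ^ om w (a k).prod := pow_le_pow_right₀ hZ (hσ k hk).2.le
    have e2 : (lam⁻¹) ^ n₁ ≤ (lam⁻¹) ^ (b k).card := pow_le_pow_of_le_one hli0 hli1 hbcard
    have e3 : (((a k).prod : ℕ) : ℝ) ^ (-(1 + η)) ≤ 1 / (((a k).prod : ℕ) : ℝ) := by
      have : (((a k).prod : ℕ) : ℝ) ^ (-(1 + η)) ≤ (((a k).prod : ℕ) : ℝ) ^ (-(1 : ℝ)) :=
        Real.rpow_le_rpow_of_exponent_le hap' (by linarith)
      rwa [Real.rpow_neg_one, inv_eq_one_div] at this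
    have e4 : (1 : ℝ) ≤ (2 * (x : ℝ)) ^ (1 + η) *
        ((((a k).prod : ℕ) : ℝ) ^ (-(1 + η)) * (((b k).prod : ℕ) : ℝ) ^ (-(1 + η))) := by
      rw [← Real.mul_rpow (by linarith) (by linarith), Real.rpow_neg (by positivity), ← div_eq_mul_inv,
        ← Real.div_rpow hxpos.le (by positivity)]
      apply Real.one_le_rpow _ (by linarith)
      rw [one_le_div (by positivity)]
      have h7 := hprod k hk
      exact_mod_cast h7
    have hb0 : 0 ≤ (((b k).prod : ℕ) : ℝ) ^ (-(1 + η)) := Real.rpow_nonneg (by linarith) _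
    have f1 : Z ^ M * (((a k).prod : ℕ) : ℝ) ^ (-(1 + η)) ≤ Z ^ om w (a k).prod / (((a k).prod : ℕ) : ℝ) := by
      rw [div_eq_mul_one_div]
      exact mul_le_mul e1 e3 (Real.rpow_nonneg (by linarith) _) (by positivity)
    have f2 : (lam⁻¹) ^ n₁ * (((b k).prod : ℕ) : ℝ) ^ (-(1 + η)) ≤
        (lam⁻¹) ^ (b k).card * (((b k).prod : ℕ) : ℝ) ^ (-(1 + η)) := mul_le_mul_of_nonneg_right e2 hb0
    have f3 : Z ^ M * (((a k).prod : ℕ) : ℝ) ^ (-(1 + η)) * ((lam⁻¹) ^ n₁ * (((b k).prod : ℕ) : ℝ) ^ (-(1 + η))) ≤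
        W (f k) := mul_le_mul f1 f2 (by positivity) (by positivity)
    have f4 : K *
        (Z ^ M * (((a k).prod : ℕ) : ℝ) ^ (-(1 + η)) * ((lam⁻¹) ^ n₁ * (((b k).prod : ℕ) : ℝ) ^ (-(1 + η)))) =
        (2 * (x : ℝ)) ^ (1 + η) * ((((a k).prod : ℕ) : ℝ) ^ (-(1 + η)) * (((b k).prod : ℕ) : ℝ) ^ (-(1 + η))) := by
      have g1 : (1 / Z) ^ M * Z ^ M = 1 := by
        rw [← mul_pow, one_div, inv_mul_cancel₀ hZ0.ne', one_pow]
      have g2 : lam ^ n₁ * (lam⁻¹) ^ n₁ = 1 := by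
        rw [← mul_pow, mul_inv_cancel₀ hlam0.ne', one_pow]
      calc _ = (2 * (x : ℝ)) ^ (1 + η) * ((1 / Z) ^ M * Z ^ M) * (lam ^ n₁ * (lam⁻¹) ^ n₁) *
            ((((a k).prod : ℕ) : ℝ) ^ (-(1 + η)) * (((b k).prod : ℕ) : ℝ) ^ (-(1 + η))) := by rw [hK]; ring
        _ = _ := by rw [g1, g2]; ring
    calc (1 : ℝ) ≤ _ := e4
      _ = _ := f4.symm
      _ ≤ _ := mul_le_mul_of_nonneg_left f3 hK0
  -- the product set
  set Qs := X.image (fun k => (a k).prod) with hQs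
  set T := y * Nat.log 2 (2 * x) + 1 with hT
  set Bs := X.image b with hBs
  have hWnn : ∀ q : (ℕ × ℕ) × Multiset ℕ, 0 ≤ W q := by
    intro q
    have : 0 ≤ ((q.2.prod : ℕ) : ℝ) ^ (-(1 + η)) := Real.rpow_nonneg (Nat.cast_nonneg _) _
    simp only [hW]
    positivity
  have hsub : X.image f ⊆ (Qs ×ˢ range T) ×ˢ Bs := by
    intro q hq
    rw [mem_image] at hq
    obtain ⟨k, hk, rfl⟩ := hq
    rw [mem_product, mem_product, mem_range]
    refine ⟨⟨mem_image_of_mem _ hk, ?_⟩, mem_image_of_mem _ hk⟩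
    have h1 := sum_le_card y (a k) fun e he => (ha2 k e he).2
    have h2 : 2 ^ (a k).card ≤ (a k).prod := two_pow_card (a k) fun e he => (ha2 k e he).1
    have h3 := hprod k hk
    have h4 : (a k).prod ≤ (a k).prod * (b k).prod := Nat.le_mul_of_pos_right _ (hbp k)
    have h5 : (a k).card ≤ Nat.log 2 (2 * x) := by
      apply Nat.le_log_of_pow_le (by norm_num)
      omega
    have h6 : (a k).card * y ≤ y * Nat.log 2 (2 * x) := by
      rw [mul_comm]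
      exact Nat.mul_le_mul_left y h5
    show (a k).sum - (a k).card < T
    omega
  have hsum : ∑ k ∈ X, W (f k) ≤ (∑ Q ∈ Qs, Z ^ om w Q / (Q : ℝ)) * T *
      ∑ β ∈ Bs, (lam⁻¹) ^ β.card * ((β.prod : ℕ) : ℝ) ^ (-(1 + η)) := by
    rw [← Finset.sum_image (f := W) hinj]
    refine (Finset.sum_le_sum_of_subset_of_nonneg hsub fun q _ _ => hWnn q).trans ?_
    rw [Finset.sum_product, Finset.sum_product]
    apply le_of_eq
    rw [Finset.sum_mul, Finset.sum_mul]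
    refine Finset.sum_congr rfl fun Q _ => ?_
    rw [Finset.sum_congr rfl (g := fun _ => Z ^ om w Q / (Q : ℝ) *
      ∑ β ∈ Bs, (lam⁻¹) ^ β.card * ((β.prod : ℕ) : ℝ) ^ (-(1 + η))) (fun S _ => by rw [Finset.mul_sum])]
    rw [Finset.sum_const, card_range, nsmul_eq_mul]
    ring
  have hQb := hU w y Z Qs hw hwy hZ hZw (by
    intro Q hQ
    rw [hQs, mem_image] at hQ
    obtain ⟨k, hk, rfl⟩ := hQ
    exact ⟨(hap k).ne', smooth y (a k) (ha2 k)⟩)
  have hBb := large_sum (N := 2 * x) hlam hη0 Bs (by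
    intro s hs e he
    rw [hBs, mem_image] at hs
    obtain ⟨k, hk, rfl⟩ := hs
    refine ⟨(hb2 k e he).1, ?_⟩
    have h1 := entry_le_prod (m := b k) (fun c hc => by have := (hb2 k c hc).1; omega) he
    have h2 := hprod k hk
    have h3 : (b k).prod ≤ (a k).prod * (b k).prod := Nat.le_mul_of_pos_left _ (hap k)
    omega)
  have hQ0 : 0 ≤ ∑ Q ∈ Qs, Z ^ om w Q / (Q : ℝ) := Finset.sum_nonneg fun Q _ => by positivity
  have hB0 : 0 ≤ ∑ β ∈ Bs, (lam⁻¹) ^ β.card * ((β.prod : ℕ) : ℝ) ^ (-(1 + η)) :=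
    Finset.sum_nonneg fun β _ => mul_nonneg (pow_nonneg hli0 _) (Real.rpow_nonneg (Nat.cast_nonneg _) _)
  have hTle : (T : ℝ) ≤ (y : ℝ) * (Nat.log 2 (2 * x) + 1) + 1 := by
    rw [hT]
    push_cast
    have : (0 : ℝ) ≤ (y : ℝ) := Nat.cast_nonneg _
    nlinarith
  have hT0 : (0 : ℝ) ≤ T := Nat.cast_nonneg _
  calc (X.card : ℝ) = ∑ k ∈ X, (1 : ℝ) := by simp
    _ ≤ ∑ k ∈ X, K * W (f k) := Finset.sum_le_sum hw1
    _ = K * ∑ k ∈ X, W (f k) := by rw [Finset.mul_sum]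
    _ ≤ K * (Real.exp (2 * Z * (Real.log (Real.log y) + C)) * ((y : ℝ) * (Nat.log 2 (2 * x) + 1) + 1) *
          Real.exp (2 / (lam * η))) := by
        apply mul_le_mul_of_nonneg_left _ hK0
        refine hsum.trans ?_
        exact mul_le_mul (mul_le_mul hQb hTle hT0 (Real.exp_pos _).le) hBb hB0 (by positivity)
    _ = _ := by rw [hK]; ring

end Pool.Agent.Helper62.Up
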