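import Pool.Agent.Helper62.Up.GL
import Pool.Agent.Helper62.Up.Co

/-!
# Row UA2 (helper62)
-/

set_option autoImplicit false

namespace Pool.Agent.Helper62.Up

open Finset Pool.Agent.SPA

lemma om_mul (w : ℕ) {a b : ℕ} (ha : a ≠ 0) (hb : b ≠ 0) : om w (a * b) = om w a + om w b := by
  unfold om
  have h := (Nat.perm_primeFactorsList_mul ha hb).filter (fun p => decide (w < p))
  rw [h.length_eq, List.filter_append, List.length_append]

lemma om_one (w : ℕ) : om w 1 = 0 := by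
  unfold om
  simp

lemma prod_ne (t : Multiset ℕ) (ht : ∀ a ∈ t, 2 ≤ a) : t.prod ≠ 0 := by
  intro h0
  rw [Multiset.prod_eq_zero_iff] at h0
  have := ht 0 h0
  omega

lemma small_prod (w : ℕ) (z : ℝ) (t : Multiset ℕ) (ht : ∀ a ∈ t, 2 ≤ a) :
    (t.map (fun e : ℕ => z ^ om w e / (e : ℝ))).prod = z ^ om w t.prod / ((t.prod : ℕ) : ℝ) := by
  induction t using Multiset.induction with
  | empty => simp [om_one]
  | cons a t ih =>
    have ht' : ∀ b ∈ t, 2 ≤ b := fun b hb => ht b (Multiset.mem_cons_of_mem hb)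
    have ha : 2 ≤ a := ht a (Multiset.mem_cons_self a t)
    rw [Multiset.map_cons, Multiset.prod_cons, Multiset.prod_cons, ih ht', om_mul w (by omega) (prod_ne t ht'),
      pow_add, Nat.cast_mul, div_mul_div_comm]

lemma large_prod (lam η : ℝ) (t : Multiset ℕ) :
    (t.map (fun e : ℕ => lam⁻¹ * (e : ℝ) ^ (-(1 + η)))).prod =
      (lam⁻¹) ^ t.card * ((t.prod : ℕ) : ℝ) ^ (-(1 + η)) := by
  induction t using Multiset.induction with
  | empty => simp
  | cons a t ih =>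
    rw [Multiset.map_cons, Multiset.prod_cons, Multiset.prod_cons, ih, Multiset.card_cons, pow_succ, Nat.cast_mul,
      Real.mul_rpow (Nat.cast_nonneg _) (Nat.cast_nonneg _)]
    ring

lemma pow_card_le (y : ℕ) (t : Multiset ℕ) (ht : ∀ a ∈ t, y < a) : y ^ t.card ≤ t.prod := by
  induction t using Multiset.induction with
  | empty => simp
  | cons a t ih =>
    rw [Multiset.card_cons, Multiset.prod_cons, pow_succ, mul_comm]
    exact Nat.mul_le_mul (ht a (Multiset.mem_cons_self a t)).le (ih fun b hb => ht b (Multiset.mem_cons_of_mem hb))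

lemma inv_le2 {u : ℝ} (h0 : 0 ≤ u) (h1 : u ≤ 1 / 2) : (1 - u)⁻¹ ≤ Real.exp (2 * u) := by
  have h2 : (1 - u)⁻¹ ≤ 1 + 2 * u := by
    rw [inv_le_comm₀ (by linarith) (by positivity)]
    rw [inv_eq_one_div, div_le_iff₀ (by positivity)]
    nlinarith
  have := Real.add_one_le_exp (2 * u)
  linarith

/-- **Row UA2.** -/
theorem ua262 : RowUA2 := by
  classical
  intro x y w M n₁ z lam η X hx hy hz0 hz1 hlam hη0 hη1 hyn hX
  set g : ℕ → ℝ := fun e => if e ≤ y then z ^ om w e / (e : ℝ) else lam⁻¹ * (e : ℝ) ^ (-(1 + η)) with hg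
  have hlam0 : 0 < lam := by linarith
  have hli0 : 0 ≤ lam⁻¹ := (inv_pos.2 hlam0).le
  have hli1 : lam⁻¹ ≤ 1 := inv_le_one_of_one_le₀ hlam
  have hxpos : (0 : ℝ) < 2 * (x : ℝ) := by
    have : (2 : ℝ) ≤ (x : ℝ) := by exact_mod_cast hx
    linarith
  have hg01 : ∀ n, 2 ≤ n → 0 ≤ g n ∧ g n ≤ 1 / 2 := by
    intro n hn
    have hn' : (2 : ℝ) ≤ (n : ℝ) := by exact_mod_cast hn
    have hnpos : (0 : ℝ) < (n : ℝ) := by linarith
    have h12 : 1 / (n : ℝ) ≤ 1 / 2 := one_div_le_one_div_of_le (by norm_num) hn'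
    simp only [hg]
    split_ifs with h
    · refine ⟨by positivity, ?_⟩
      refine le_trans ?_ h12
      exact div_le_div_of_nonneg_right (pow_le_one₀ hz0.le hz1) hnpos.le
    · have h3 : (n : ℝ) ^ (-(1 + η)) ≤ 1 / n := by
        have : (n : ℝ) ^ (-(1 + η)) ≤ (n : ℝ) ^ (-(1 : ℝ)) :=
          Real.rpow_le_rpow_of_exponent_le (by linarith) (by linarith)
        rwa [Real.rpow_neg_one, inv_eq_one_div] at this
      have h4 : 0 ≤ (n : ℝ) ^ (-(1 + η)) := Real.rpow_nonneg hnpos.le _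
      refine ⟨mul_nonneg hli0 h4, ?_⟩
      calc lam⁻¹ * (n : ℝ) ^ (-(1 + η)) ≤ 1 * (1 / 2) := mul_le_mul hli1 (h3.trans h12) h4 zero_le_one
        _ = 1 / 2 := one_mul _
  set N := max (2 * x) y with hN
  have hent : ∀ s ∈ X, ∀ e ∈ s, 2 ≤ e ∧ e ≤ N := by
    intro s hs e he
    obtain ⟨h1, h2, -⟩ := hX s hs
    refine ⟨h1 e he, ?_⟩
    have h3 := entry_le_prod (fun b hb => by have := h1 b hb; omega) he
    exact (h3.trans h2).trans (le_max_left _ _)
  have hsum := gl62 N g X (fun n hn _ => hg01 n hn) hent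
  -- each weight
  have hw : ∀ s ∈ X, (1 : ℝ) ≤ (2 * (x : ℝ)) ^ (1 + η) * (1 / z) ^ M * lam ^ n₁ * (s.map g).prod := by
    intro s hs
    obtain ⟨h1, h2, h3⟩ := hX s hs
    set a := s.filter (fun a => a ≤ y) with ha
    set b := s.filter (fun a => ¬ a ≤ y) with hb
    have hsab : s = a + b := (Multiset.filter_add_not _ s).symm
    have ha2 : ∀ e ∈ a, 2 ≤ e := fun e he => h1 e (Multiset.mem_filter.1 he).1
    have hb2 : ∀ e ∈ b, 2 ≤ e := fun e he => h1 e (Multiset.mem_filter.1 he).1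
    have hga : a.map g = a.map (fun e : ℕ => z ^ om w e / (e : ℝ)) := by
      apply Multiset.map_congr rfl
      intro e he
      simp only [hg, (Multiset.mem_filter.1 he).2, if_true]
    have hgb : b.map g = b.map (fun e : ℕ => lam⁻¹ * (e : ℝ) ^ (-(1 + η))) := by
      apply Multiset.map_congr rfl
      intro e he
      simp only [hg, (Multiset.mem_filter.1 he).2, if_false]
    have hprod : (s.map g).prod = z ^ om w a.prod / ((a.prod : ℕ) : ℝ) *
        ((lam⁻¹) ^ b.card * ((b.prod : ℕ) : ℝ) ^ (-(1 + η))) := by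
      rw [hsab, Multiset.map_add, Multiset.prod_add, hga, hgb, small_prod w z a ha2, large_prod]
    have hap : 0 < a.prod := Nat.pos_of_ne_zero (prod_ne a ha2)
    have hbp : 0 < b.prod := Nat.pos_of_ne_zero (prod_ne b hb2)
    have hap' : (1 : ℝ) ≤ ((a.prod : ℕ) : ℝ) := by exact_mod_cast hap
    have hbp' : (1 : ℝ) ≤ ((b.prod : ℕ) : ℝ) := by exact_mod_cast hbp
    have hsp : s.prod = a.prod * b.prod := by rw [hsab, Multiset.prod_add]
    have hbcard : b.card ≤ n₁ := by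
      by_contra hcon
      push Not at hcon
      have h4 : y ^ b.card ≤ b.prod := pow_card_le y b fun e he => by
        have := (Multiset.mem_filter.1 he).2
        omega
      have h5 : y ^ (n₁ + 1) ≤ y ^ b.card := Nat.pow_le_pow_right (by omega) hcon
      have h6 : b.prod ≤ s.prod := by
        rw [hsp]
        exact Nat.le_mul_of_pos_left _ hap
      omega
    have e1 : z ^ M ≤ z ^ om w a.prod := pow_le_pow_of_le_one hz0.le hz1 h3
    have e2 : (lam⁻¹) ^ n₁ ≤ (lam⁻¹) ^ b.card := pow_le_pow_of_le_one hli0 hli1 hbcard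
    have e3 : ((a.prod : ℕ) : ℝ) ^ (-(1 + η)) ≤ 1 / ((a.prod : ℕ) : ℝ) := by
      have : ((a.prod : ℕ) : ℝ) ^ (-(1 + η)) ≤ ((a.prod : ℕ) : ℝ) ^ (-(1 : ℝ)) :=
        Real.rpow_le_rpow_of_exponent_le hap' (by linarith)
      rwa [Real.rpow_neg_one, inv_eq_one_div] at this
    have e4 : (1 : ℝ) ≤ (2 * (x : ℝ)) ^ (1 + η) *
        (((a.prod : ℕ) : ℝ) ^ (-(1 + η)) * ((b.prod : ℕ) : ℝ) ^ (-(1 + η))) := by
      rw [← Real.mul_rpow (by linarith) (by linarith), Real.rpow_neg (by positivity), ← div_eq_mul_inv,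
        ← Real.div_rpow hxpos.le (by positivity)]
      apply Real.one_le_rpow _ (by linarith)
      rw [one_le_div (by positivity)]
      have h7 : ((a.prod : ℕ) : ℝ) * ((b.prod : ℕ) : ℝ) = ((s.prod : ℕ) : ℝ) := by
        rw [hsp]
        push_cast
        ring
      rw [h7]
      exact_mod_cast h2
    have hb0 : 0 ≤ ((b.prod : ℕ) : ℝ) ^ (-(1 + η)) := Real.rpow_nonneg (by linarith) _
    have hx0 : 0 ≤ (2 * (x : ℝ)) ^ (1 + η) := Real.rpow_nonneg hxpos.le _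
    rw [hprod]
    have f1 : z ^ M * ((a.prod : ℕ) : ℝ) ^ (-(1 + η)) ≤ z ^ om w a.prod / ((a.prod : ℕ) : ℝ) := by
      rw [div_eq_mul_one_div]
      exact mul_le_mul e1 e3 (Real.rpow_nonneg (by linarith) _) (by positivity)
    have f2 : (lam⁻¹) ^ n₁ * ((b.prod : ℕ) : ℝ) ^ (-(1 + η)) ≤
        (lam⁻¹) ^ b.card * ((b.prod : ℕ) : ℝ) ^ (-(1 + η)) := mul_le_mul_of_nonneg_right e2 hb0
    have f3 : z ^ M * ((a.prod : ℕ) : ℝ) ^ (-(1 + η)) * ((lam⁻¹) ^ n₁ * ((b.prod : ℕ) : ℝ) ^ (-(1 + η))) ≤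
        z ^ om w a.prod / ((a.prod : ℕ) : ℝ) * ((lam⁻¹) ^ b.card * ((b.prod : ℕ) : ℝ) ^ (-(1 + η))) :=
      mul_le_mul f1 f2 (by positivity) (by positivity)
    have f4 : (2 * (x : ℝ)) ^ (1 + η) * (1 / z) ^ M * lam ^ n₁ *
        (z ^ M * ((a.prod : ℕ) : ℝ) ^ (-(1 + η)) * ((lam⁻¹) ^ n₁ * ((b.prod : ℕ) : ℝ) ^ (-(1 + η)))) =
        (2 * (x : ℝ)) ^ (1 + η) * (((a.prod : ℕ) : ℝ) ^ (-(1 + η)) * ((b.prod : ℕ) : ℝ) ^ (-(1 + η))) := by
      have g1 : (1 / z) ^ M * z ^ M = 1 := by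
        rw [← mul_pow, one_div, inv_mul_cancel₀ hz0.ne', one_pow]
      have g2 : lam ^ n₁ * (lam⁻¹) ^ n₁ = 1 := by
        rw [← mul_pow, mul_inv_cancel₀ hlam0.ne', one_pow]
      calc _ = (2 * (x : ℝ)) ^ (1 + η) * ((1 / z) ^ M * z ^ M) * (lam ^ n₁ * (lam⁻¹) ^ n₁) *
            (((a.prod : ℕ) : ℝ) ^ (-(1 + η)) * ((b.prod : ℕ) : ℝ) ^ (-(1 + η))) := by ring
        _ = _ := by rw [g1, g2]; ring
    calc (1 : ℝ) ≤ _ := e4
      _ = _ := f4.symm
      _ ≤ _ := mul_le_mul_of_nonneg_left f3 (by positivity)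
  -- the product
  have hprodle : ∏ n ∈ Icc 2 N, (1 - g n)⁻¹ ≤ Real.exp (2 / (lam * η)) *
      Real.exp (2 * ∑ e ∈ Icc 1 y, z ^ om w e / (e : ℝ)) := by
    have h1 : ∀ n ∈ Icc 2 N, (1 - g n)⁻¹ ≤ Real.exp (2 * g n) := fun n hn => by
      have := hg01 n (mem_Icc.1 hn).1
      exact inv_le2 this.1 this.2
    have h2 : ∀ n ∈ Icc 2 N, 0 ≤ (1 - g n)⁻¹ := fun n hn => by
      have := hg01 n (mem_Icc.1 hn).1
      rw [inv_nonneg]
      linarith
    refine (Finset.prod_le_prod h2 h1).trans ?_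
    rw [← Real.exp_sum, ← Real.exp_add, ← Finset.mul_sum]
    apply Real.exp_le_exp.2
    have h3 : ∑ n ∈ Icc 2 N, g n ≤ ∑ e ∈ Icc 1 y, z ^ om w e / (e : ℝ) +
        lam⁻¹ * ∑ a ∈ Icc 2 N, (a : ℝ) ^ (-(1 + η)) := by
      have h4 : ∀ n ∈ Icc 2 N, g n ≤ (if n ≤ y then z ^ om w n / (n : ℝ) else 0) +
          lam⁻¹ * (n : ℝ) ^ (-(1 + η)) := by
        intro n hn
        have h5 : 0 ≤ lam⁻¹ * (n : ℝ) ^ (-(1 + η)) := mul_nonneg hli0 (Real.rpow_nonneg (Nat.cast_nonneg _) _)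
        simp only [hg]
        split_ifs
        · linarith
        · linarith
      refine (Finset.sum_le_sum h4).trans ?_
      rw [Finset.sum_add_distrib, ← Finset.mul_sum]
      refine add_le_add ?_ le_rfl
      rw [← Finset.sum_filter]
      apply Finset.sum_le_sum_of_subset_of_nonneg
      · intro n hn
        rw [mem_filter, mem_Icc] at hn
        rw [mem_Icc]
        omega
      · intro n _ _
        positivity
    have h6 := sum_le hη0 N
    have h7 : lam⁻¹ * ∑ a ∈ Icc 2 N, (a : ℝ) ^ (-(1 + η)) ≤ lam⁻¹ * (1 / η) := mul_le_mul_of_nonneg_left h6 hli0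
    have h8 : 2 / (lam * η) = 2 * (lam⁻¹ * (1 / η)) := by
      field_simp
    rw [h8]
    linarith
  set K := (2 * (x : ℝ)) ^ (1 + η) * (1 / z) ^ M * lam ^ n₁ with hK
  have hK0 : 0 ≤ K := by
    have hx0 : 0 ≤ (2 * (x : ℝ)) ^ (1 + η) := Real.rpow_nonneg hxpos.le _
    positivity
  calc (X.card : ℝ) = ∑ s ∈ X, (1 : ℝ) := by simp
    _ ≤ ∑ s ∈ X, K * (s.map g).prod := Finset.sum_le_sum hw
    _ = K * ∑ s ∈ X, (s.map g).prod := by rw [Finset.mul_sum]
    _ ≤ K * (Real.exp (2 / (lam * η)) * Real.exp (2 * ∑ e ∈ Icc 1 y, z ^ om w e / (e : ℝ))) :=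
        mul_le_mul_of_nonneg_left (hsum.trans hprodle) hK0
    _ = _ := by ring

end Pool.Agent.Helper62.Up
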