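import Pool.Agent.Helper62.Up.Co
import Pool.Agent.SPM.Sol46
import Pool.Agent.SPA.Stmts9

/-!
# Row Up (helper62): `N k ≤ exp (4 sqrt (log x))` outside a small set
-/

set_option autoImplicit false

namespace Pool.Agent.Helper62.Up

open Finset Pool.Agent.SPM

lemma two_sum_le : ∀ u : Multiset ℕ, (∀ a ∈ u, 2 ≤ a) → 2 ≤ u.card → 2 * u.sum ≤ u.prod + 2 * u.card := by
  intro u
  induction u using Multiset.induction with
  | empty => intro _ h; simp at h
  | cons a t ih =>
    intro hu hc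
    have ha : 2 ≤ a := hu a (Multiset.mem_cons_self a t)
    have ht : ∀ b ∈ t, 2 ≤ b := fun b hb => hu b (Multiset.mem_cons_of_mem hb)
    rw [Multiset.card_cons] at hc
    rw [Multiset.sum_cons, Multiset.prod_cons, Multiset.card_cons]
    rcases Nat.lt_or_ge t.card 2 with h | h
    · have h1 : t.card = 1 := by omega
      obtain ⟨b, rfl⟩ := Multiset.card_eq_one.1 h1
      have hb : 2 ≤ b := ht b (Multiset.mem_singleton_self b)
      simp only [Multiset.sum_singleton, Multiset.prod_singleton, Multiset.card_singleton]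
      obtain ⟨α, rfl⟩ : ∃ α, a = α + 2 := ⟨a - 2, by omega⟩
      obtain ⟨β, rfl⟩ : ∃ β, b = β + 2 := ⟨b - 2, by omega⟩
      nlinarith [Nat.zero_le (α * β)]
    · have h1 := ih ht h
      have h2 : t.card • 2 ≤ t.sum := Multiset.card_nsmul_le_sum ht
      rw [smul_eq_mul] at h2
      have h3 : 2 ≤ t.prod := by omega
      obtain ⟨α, rfl⟩ : ∃ α, a = α + 1 := ⟨a - 1, by omega⟩
      nlinarith [Nat.mul_le_mul_left α h3]

/-- the big entries of a solution -/
lemma split {k : ℕ} {s : Multiset ℕ} (hs : IsSP k s) :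
    ∃ j : ℕ, s = s.filter (2 ≤ ·) + Multiset.replicate j 1 ∧ (s.filter (2 ≤ ·)).card + j = k ∧
      (s.filter (2 ≤ ·)).prod = (s.filter (2 ≤ ·)).sum + j := by
  obtain ⟨hc, hpos, hps⟩ := hs
  have h1 : s = s.filter (2 ≤ ·) + s.filter (fun a => ¬ 2 ≤ a) := (Multiset.filter_add_not _ s).symm
  have h2 : s.filter (fun a => ¬ 2 ≤ a) = Multiset.replicate (s.filter (fun a => ¬ 2 ≤ a)).card 1 := by
    apply Multiset.eq_replicate_card.2
    intro a ha
    rw [Multiset.mem_filter] at ha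
    have := hpos a ha.1
    omega
  refine ⟨(s.filter (fun a => ¬ 2 ≤ a)).card, ?_, ?_, ?_⟩
  · rw [← h2]; exact h1
  · rw [← Multiset.card_add, ← h1]; exact hc
  · have h3 : s.prod = (s.filter (2 ≤ ·)).prod := by
      conv_lhs => rw [h1, h2]
      rw [Multiset.prod_add, Multiset.prod_replicate, one_pow, mul_one]
    have h4 : s.sum = (s.filter (2 ≤ ·)).sum + (s.filter (fun a => ¬ 2 ≤ a)).card := by
      conv_lhs => rw [h1, h2]
      rw [Multiset.sum_add, Multiset.sum_replicate, smul_eq_mul, mul_one]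
    rw [← h3, hps, h4]

lemma prod_le_two {k : ℕ} (hk : 2 ≤ k) {s : Multiset ℕ} (hs : IsSP k s) :
    (s.filter (2 ≤ ·)).prod ≤ 2 * k := by
  obtain ⟨j, h1, h2, h3⟩ := split hs
  set u := s.filter (2 ≤ ·) with hu
  have hu2 : ∀ a ∈ u, 2 ≤ a := fun a ha => (Multiset.mem_filter.1 ha).2
  rcases Nat.lt_or_ge u.card 2 with h | h
  · rcases Nat.lt_or_ge u.card 1 with h' | h'
    · have h4 : u = 0 := by rw [← Multiset.card_eq_zero]; omega
      rw [h4] at h3 h2 ⊢
      simp at h3 h2 ⊢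
      omega
    · have h4 : u.card = 1 := by omega
      obtain ⟨b, hb⟩ := Multiset.card_eq_one.1 h4
      rw [hb] at h3 h2 ⊢
      simp at h3 h2 ⊢
      omega
  · have := two_sum_le u hu2 h
    omega

lemma inj {k k' : ℕ} {s s' : Multiset ℕ} (hs : IsSP k s) (hs' : IsSP k' s')
    (h : s.filter (2 ≤ ·) = s'.filter (2 ≤ ·)) : s = s' := by
  obtain ⟨j, h1, h2, h3⟩ := split hs
  obtain ⟨j', h1', h2', h3'⟩ := split hs'
  have h4 : j = j' := by
    rw [h] at h3
    omega
  calc s = s.filter (2 ≤ ·) + Multiset.replicate j 1 := h1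
    _ = s'.filter (2 ≤ ·) + Multiset.replicate j' 1 := by rw [h, h4]
    _ = s' := h1'.symm

/-- the sum of the `N k` -/
lemma sum_N_le {e : ℝ} (he : 0 < e) (x : ℕ) (hx : 2 ≤ x) :
    ∑ k ∈ Icc 2 x, (N k : ℝ) ≤ ((2 * x : ℕ) : ℝ) ^ (1 + e) * Real.exp (1 / e + 2) := by
  classical
  have hfin : ∀ k ∈ Icc 2 x, {s : Multiset ℕ | IsSP k s}.Finite := fun k hk => Sol46.fin (mem_Icc.1 hk).1
  set F : ℕ → Finset (Multiset ℕ) := fun k => if hk : k ∈ Icc 2 x then (hfin k hk).toFinset else ∅ with hF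
  have hmem : ∀ k ∈ Icc 2 x, ∀ s, s ∈ F k ↔ IsSP k s := by
    intro k hk s
    rw [hF]
    simp only [hk, dif_pos, Set.Finite.mem_toFinset, Set.mem_ofPred_eq]
  have hcard : ∀ k ∈ Icc 2 x, (N k : ℝ) = ((F k).card : ℝ) := by
    intro k hk
    rw [hF]
    simp only [hk, dif_pos]
    rw [N, Set.ncard_eq_toFinset_card _ (hfin k hk)]
  rw [Finset.sum_congr rfl hcard]
  have hdisj : ∀ k ∈ Icc 2 x, ∀ k' ∈ Icc 2 x, k ≠ k' → Disjoint (F k) (F k') := by
    intro k hk k' hk' hne
    rw [Finset.disjoint_left]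
    intro s hs hs'
    rw [hmem k hk] at hs
    rw [hmem k' hk'] at hs'
    exact hne (hs.1.symm.trans hs'.1)
  have h1 : ∑ k ∈ Icc 2 x, ((F k).card : ℝ) = (((Icc 2 x).biUnion F).card : ℝ) := by
    rw [Finset.card_biUnion hdisj]
    push_cast
    rfl
  rw [h1]
  set U := (Icc 2 x).biUnion F with hU
  have h2 : Set.InjOn (fun s : Multiset ℕ => s.filter (2 ≤ ·)) (U : Set (Multiset ℕ)) := by
    intro s hs s' hs' h
    rw [Finset.mem_coe, hU, Finset.mem_biUnion] at hs hs'
    obtain ⟨k, hk, hs⟩ := hs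
    obtain ⟨k', hk', hs'⟩ := hs'
    exact inj ((hmem k hk s).1 hs) ((hmem k' hk' s').1 hs') h
  rw [← Finset.card_image_of_injOn h2]
  apply card_le he (2 * x) (by omega)
  intro m hm
  rw [Finset.mem_image] at hm
  obtain ⟨s, hs, rfl⟩ := hm
  rw [hU, Finset.mem_biUnion] at hs
  obtain ⟨k, hk, hs⟩ := hs
  refine ⟨fun a ha => (Multiset.mem_filter.1 ha).2, ?_⟩
  have h3 := prod_le_two (mem_Icc.1 hk).1 ((hmem k hk s).1 hs)
  have h4 := (mem_Icc.1 hk).2
  omega

/-- **Row Up.** -/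
theorem up62 : Pool.Agent.SPA.RowUp := by
  classical
  refine ⟨8 * Real.exp 2, ?_⟩
  intro x hx
  have hx' : (2 : ℝ) ≤ (x : ℝ) := by exact_mod_cast hx
  have hxpos : (0 : ℝ) < (x : ℝ) := by linarith
  set L := Real.log (x : ℝ) with hL
  have hL0 : 0.6931 < L := by
    have h1 : Real.log 2 ≤ L := Real.log_le_log (by norm_num) hx'
    have h2 := Real.log_two_gt_d9
    linarith
  set r := Real.sqrt L with hr
  have hr2 : r * r = L := Real.mul_self_sqrt (by linarith)
  have hr0 : 0.5 ≤ r := by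
    rw [hr]
    apply Real.le_sqrt_of_sq_le
    norm_num
    linarith
  have hrpos : 0 < r := by linarith
  set e := 1 / r with he
  have hepos : 0 < e := by positivity
  have he2 : e ≤ 2 := by
    rw [he, div_le_iff₀ hrpos]
    linarith
  have h1 := sum_N_le hepos x hx
  have h2 : 1 / e = r := by rw [he, one_div_one_div]
  rw [h2] at h1
  have h3 : ((2 * x : ℕ) : ℝ) ^ (1 + e) ≤ 8 * x * Real.exp r := by
    rw [Nat.cast_mul, Real.mul_rpow (by norm_num) hxpos.le]
    have h4 : ((2 : ℕ) : ℝ) ^ (1 + e) ≤ 8 := by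
      have : ((2 : ℕ) : ℝ) ^ (1 + e) ≤ ((2 : ℕ) : ℝ) ^ (3 : ℝ) :=
        Real.rpow_le_rpow_of_exponent_le (by norm_num) (by linarith)
      refine this.trans ?_
      norm_num
    have h5 : (x : ℝ) ^ (1 + e) = x * Real.exp r := by
      rw [Real.rpow_add hxpos, Real.rpow_one]
      congr 1
      rw [Real.rpow_def_of_pos hxpos]
      congr 1
      rw [he, ← hL, ← hr2]
      field_simp
    rw [h5]
    have h6 : 0 ≤ x * Real.exp r := by positivity
    calc ((2 : ℕ) : ℝ) ^ (1 + e) * (x * Real.exp r) ≤ 8 * (x * Real.exp r) := mul_le_mul_of_nonneg_right h4 h6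
      _ = 8 * x * Real.exp r := by ring
  set Bad := (Icc 2 x).filter (fun k => Real.exp (4 * r) < (N k : ℝ)) with hBad
  have h7 : (Bad.card : ℝ) * Real.exp (4 * r) ≤ ∑ k ∈ Icc 2 x, (N k : ℝ) := by
    calc (Bad.card : ℝ) * Real.exp (4 * r) = ∑ k ∈ Bad, Real.exp (4 * r) := by
          rw [Finset.sum_const, nsmul_eq_mul]
      _ ≤ ∑ k ∈ Bad, (N k : ℝ) := by
          refine Finset.sum_le_sum fun k hk => ?_
          rw [hBad, mem_filter] at hk
          exact hk.2.le
      _ ≤ _ := Finset.sum_le_sum_of_subset_of_nonneg (Finset.filter_subset _ _) fun k _ _ => Nat.cast_nonneg _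
  have h8 : (Bad.card : ℝ) * Real.exp (4 * r) ≤ (8 * Real.exp 2 * x * Real.exp (-r)) * Real.exp (4 * r) := by
    refine (h7.trans h1).trans ((mul_le_mul_of_nonneg_right h3 (Real.exp_pos _).le).trans ?_)
    have h9 : 8 * (x : ℝ) * Real.exp r * Real.exp (r + 2) = 8 * Real.exp 2 * x * Real.exp (2 * r) := by
      have : Real.exp (2 * r) = Real.exp r * Real.exp r := by rw [← Real.exp_add]; congr 1; ring
      rw [Real.exp_add, this]
      ring
    have h10 : (8 * Real.exp 2 * x * Real.exp (-r)) * Real.exp (4 * r) = 8 * Real.exp 2 * x * Real.exp (3 * r) := by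
      rw [mul_assoc, ← Real.exp_add]
      congr 2
      ring
    rw [h9, h10]
    have h11 : Real.exp (2 * r) ≤ Real.exp (3 * r) := Real.exp_le_exp.2 (by linarith)
    have h12 : 0 ≤ 8 * Real.exp 2 * (x : ℝ) := by positivity
    exact mul_le_mul_of_nonneg_left h11 h12
  exact le_of_mul_le_mul_right h8 (Real.exp_pos _)

end Pool.Agent.Helper62.Up
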