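import Pool.Agent.Helper62.Up.UA2
import Pool.Agent.Helper62.Up.Up

/-!
# Row UF (helper62)
-/

set_option autoImplicit false

namespace Pool.Agent.Helper62.Up

open Finset Pool.Agent.SPA Pool.Agent.SPM

/-- all solutions of the sizes in `K`, as multisets of entries at least two -/
lemma sumN_image (K : Finset ℕ) (hK : ∀ k ∈ K, 2 ≤ k) : ∃ X : Finset (Multiset ℕ),
    ∑ k ∈ K, (N k : ℝ) = (X.card : ℝ) ∧ ∀ m ∈ X, ∃ k ∈ K, ∃ s, IsSP k s ∧ m = big s := by
  classical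
  have hfin : ∀ k ∈ K, {s : Multiset ℕ | IsSP k s}.Finite := fun k hk => Sol46.fin (hK k hk)
  set F : ℕ → Finset (Multiset ℕ) := fun k => if hk : k ∈ K then (hfin k hk).toFinset else ∅ with hF
  have hmem : ∀ k ∈ K, ∀ s, s ∈ F k ↔ IsSP k s := by
    intro k hk s
    rw [hF]
    simp only [hk, dif_pos, Set.Finite.mem_toFinset, Set.mem_ofPred_eq]
  have hcard : ∀ k ∈ K, (N k : ℝ) = ((F k).card : ℝ) := by
    intro k hk
    rw [hF]
    simp only [hk, dif_pos]
    rw [N, Set.ncard_eq_toFinset_card _ (hfin k hk)]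
  have hdisj : ∀ k ∈ K, ∀ k' ∈ K, k ≠ k' → Disjoint (F k) (F k') := by
    intro k hk k' hk' hne
    rw [Finset.disjoint_left]
    intro s hs hs'
    rw [hmem k hk] at hs
    rw [hmem k' hk'] at hs'
    exact hne (hs.1.symm.trans hs'.1)
  have h2 : Set.InjOn big ((K.biUnion F : Finset (Multiset ℕ)) : Set (Multiset ℕ)) := by
    intro s hs s' hs' h
    rw [Finset.mem_coe, Finset.mem_biUnion] at hs hs'
    obtain ⟨k, hk, hs⟩ := hs
    obtain ⟨k', hk', hs'⟩ := hs'
    exact inj ((hmem k hk s).1 hs) ((hmem k' hk' s').1 hs') h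
  refine ⟨(K.biUnion F).image big, ?_, ?_⟩
  · rw [Finset.card_image_of_injOn h2, Finset.sum_congr rfl hcard, Finset.card_biUnion hdisj]
    push_cast
    rfl
  · intro m hm
    rw [Finset.mem_image] at hm
    obtain ⟨s, hs, rfl⟩ := hm
    rw [Finset.mem_biUnion] at hs
    obtain ⟨k, hk, hs⟩ := hs
    exact ⟨k, hk, s, (hmem k hk s).1 hs, rfl⟩

/-- **Row UF.** -/
theorem uf62 : RowUA1 → RowUA2 → RowU2 → RowUF := by
  classical
  rintro ⟨C₁, hC₁, h1⟩ h2 ⟨C₂, hC₂, h3⟩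
  refine ⟨C₁ + 2 * C₂, by positivity, ?_⟩
  intro x y w M n₁ z Z lam η F hx hw hwy hz0 hz1 hZ hZw hlam hη0 hη1 hF hyn
  set A := (Icc 2 x).filter (fun k => Bad w y M k) with hA
  set K := (Icc 2 x).filter (fun k => ¬ Bad w y M k) with hK
  set E := (Icc 2 x).filter (fun k => F < (N k : ℝ)) with hE
  have hEsub : E ⊆ A ∪ K.filter (fun k => F < (N k : ℝ)) := by
    intro k hk
    rw [hE, mem_filter] at hk
    rw [mem_union, hA, mem_filter, mem_filter, hK, mem_filter]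
    by_cases hb : Bad w y M k
    · exact Or.inl ⟨hk.1, hb⟩
    · exact Or.inr ⟨⟨hk.1, hb⟩, hk.2⟩
  have hEcard : (E.card : ℝ) ≤ (A.card : ℝ) + ((K.filter (fun k => F < (N k : ℝ))).card : ℝ) := by
    exact_mod_cast (Finset.card_le_card hEsub).trans (Finset.card_union_le _ _)
  set P := (2 * (x : ℝ)) ^ (1 + η) * lam ^ n₁ * Real.exp (2 / (lam * η)) with hP
  have hlam0 : 0 ≤ lam := by linarith
  have hP0 : 0 ≤ P := by
    have : 0 ≤ (2 * (x : ℝ)) ^ (1 + η) := Real.rpow_nonneg (by positivity) _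
    positivity
  -- the bad sizes
  have hAb := h1 x y w M n₁ Z lam η hx hw hwy hZ hZw hlam hη0 hη1 hyn A (by
    intro k hk
    rw [hA, mem_filter, mem_Icc] at hk
    exact ⟨hk.1.1, hk.1.2, hk.2⟩)
  have hAb' : (A.card : ℝ) ≤ P * (((y : ℝ) * (Nat.log 2 (2 * x) + 1) + 1) * (1 / Z) ^ M *
      Real.exp (2 * Z * (Real.log (Real.log y) + (C₁ + 2 * C₂)))) := by
    refine hAb.trans ?_
    have e1 : Real.exp (2 * Z * (Real.log (Real.log y) + C₁)) ≤
        Real.exp (2 * Z * (Real.log (Real.log y) + (C₁ + 2 * C₂))) := by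
      apply Real.exp_le_exp.2
      have : 0 ≤ 2 * Z * (2 * C₂) := by positivity
      nlinarith
    have hZ0 : (0 : ℝ) ≤ 1 / Z := by positivity
    calc ((y : ℝ) * (Nat.log 2 (2 * x) + 1) + 1) * (2 * (x : ℝ)) ^ (1 + η) * (1 / Z) ^ M * lam ^ n₁ *
          Real.exp (2 / (lam * η)) * Real.exp (2 * Z * (Real.log (Real.log y) + C₁)) =
        P * (((y : ℝ) * (Nat.log 2 (2 * x) + 1) + 1) * (1 / Z) ^ M) *
          Real.exp (2 * Z * (Real.log (Real.log y) + C₁)) := by rw [hP]; ring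
      _ ≤ P * (((y : ℝ) * (Nat.log 2 (2 * x) + 1) + 1) * (1 / Z) ^ M) *
          Real.exp (2 * Z * (Real.log (Real.log y) + (C₁ + 2 * C₂))) := by
          apply mul_le_mul_of_nonneg_left e1
          positivity
      _ = _ := by ring
  -- the good sizes
  obtain ⟨X, hX1, hX2⟩ := sumN_image K (by
    intro k hk
    rw [hK, mem_filter, mem_Icc] at hk
    exact hk.1.1)
  have hXb := h2 x y w M n₁ z lam η X hx (by omega) hz0 hz1 hlam hη0 hη1 hyn (by
    intro m hm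
    obtain ⟨k, hk, s, hs, rfl⟩ := hX2 m hm
    rw [hK, mem_filter, mem_Icc] at hk
    refine ⟨fun e he => (Multiset.mem_filter.1 he).2, ?_, ?_⟩
    · have := prod_le_two hk.1.1 hs
      have h5 := hk.1.2
      unfold big
      omega
    · by_contra hcon
      push Not at hcon
      exact hk.2 ⟨s, hs, hcon⟩)
  have hUb := h3 w y z hw hwy hz0 hz1
  have hXb' : (X.card : ℝ) ≤ P * ((1 / z) ^ M *
      Real.exp ((C₁ + 2 * C₂) * Real.log w ^ (1 - z) * Real.log y ^ z)) := by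
    refine hXb.trans ?_
    have hw1 : (1 : ℝ) ≤ (w : ℝ) := by exact_mod_cast (by omega : 1 ≤ w)
    have hy1 : (1 : ℝ) ≤ (y : ℝ) := by exact_mod_cast (by omega : 1 ≤ y)
    have g1 : 0 ≤ Real.log w ^ (1 - z) := Real.rpow_nonneg (Real.log_nonneg hw1) _
    have g2 : 0 ≤ Real.log y ^ z := Real.rpow_nonneg (Real.log_nonneg hy1) _
    have e2 : Real.exp (2 * ∑ e ∈ Icc 1 y, z ^ om w e / (e : ℝ)) ≤
        Real.exp ((C₁ + 2 * C₂) * Real.log w ^ (1 - z) * Real.log y ^ z) := by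
      apply Real.exp_le_exp.2
      have : 0 ≤ C₁ * (Real.log w ^ (1 - z) * Real.log y ^ z) := by positivity
      nlinarith
    have hz' : (0 : ℝ) ≤ 1 / z := by positivity
    calc (2 * (x : ℝ)) ^ (1 + η) * (1 / z) ^ M * lam ^ n₁ * Real.exp (2 / (lam * η)) *
          Real.exp (2 * ∑ e ∈ Icc 1 y, z ^ om w e / (e : ℝ)) =
        P * (1 / z) ^ M * Real.exp (2 * ∑ e ∈ Icc 1 y, z ^ om w e / (e : ℝ)) := by rw [hP]; ring
      _ ≤ P * (1 / z) ^ M * Real.exp ((C₁ + 2 * C₂) * Real.log w ^ (1 - z) * Real.log y ^ z) := by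
          apply mul_le_mul_of_nonneg_left e2
          positivity
      _ = _ := by ring
  have hG : ((K.filter (fun k => F < (N k : ℝ))).card : ℝ) * F ≤ ∑ k ∈ K, (N k : ℝ) := by
    calc ((K.filter (fun k => F < (N k : ℝ))).card : ℝ) * F = ∑ k ∈ K.filter (fun k => F < (N k : ℝ)), F := by
          rw [Finset.sum_const, nsmul_eq_mul]
      _ ≤ ∑ k ∈ K.filter (fun k => F < (N k : ℝ)), (N k : ℝ) := by
          refine Finset.sum_le_sum fun k hk => ?_
          rw [mem_filter] at hk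
          exact hk.2.le
      _ ≤ _ := Finset.sum_le_sum_of_subset_of_nonneg (Finset.filter_subset _ _) fun k _ _ => Nat.cast_nonneg _
  have hG' : ((K.filter (fun k => F < (N k : ℝ))).card : ℝ) ≤ P * ((1 / z) ^ M *
      Real.exp ((C₁ + 2 * C₂) * Real.log w ^ (1 - z) * Real.log y ^ z) / F) := by
    rw [← mul_div_assoc, le_div_iff₀ hF]
    rw [hX1] at hG
    exact hG.trans hXb'
  calc (E.card : ℝ) ≤ _ := hEcard
    _ ≤ _ := add_le_add hAb' hG'
    _ = _ := by rw [hP]; ring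

end Pool.Agent.Helper62.Up
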